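import Pool.Agent.helper96.S5.SpecL

/-!
# MP_0b485e_lc, level 5, row AXQ
-/

set_option autoImplicit false

namespace S5

open PF

noncomputable section

theorem AXQ_rp {L : Type} [Lattice L] [BoundedOrder L] {n : ℕ} {b : Bool} {P Q : Pp L}
    (h : ∀ δ e, P δ e ↔ Q δ e) (hP : Rp L n b P) : Rp L n b Q := by
  have : P = Q := by
    funext δ e
    exact propext (h δ e)
  rw [← this]
  exact hP

/-- the environment with the first `k` values from `v` -/
def AXQ_en {L : Type} (k : ℕ) (v e : ℕ → L) (i : ℕ) : L := if i < k then v i else e (i - k)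

theorem AXQ_en_zero {L : Type} (v e : ℕ → L) : AXQ_en 0 v e = e := by
  funext i
  simp [AXQ_en]

theorem AXQ_en_succ {L : Type} (k : ℕ) (v e : ℕ → L) : AXQ_en (k + 1) v e = AXQ_en k v (cns (v k) e) := by
  funext i
  unfold AXQ_en
  by_cases h1 : i < k
  · rw [if_pos (by omega), if_pos h1]
  · rw [if_neg h1]
    by_cases h2 : i = k
    · subst h2
      rw [if_pos (by omega), Nat.sub_self]
      rfl
    · rw [if_neg (by omega)]
      obtain ⟨m, hm⟩ : ∃ m, i - k = m + 1 := ⟨i - k - 1, by omega⟩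
      rw [hm]
      have : i - (k + 1) = m := by omega
      rw [this]
      rfl

theorem AXQ_en_congr {L : Type} (k : ℕ) (v v' e : ℕ → L) (h : ∀ i < k, v i = v' i) :
    AXQ_en k v e = AXQ_en k v' e := by
  funext i
  unfold AXQ_en
  by_cases h1 : i < k
  · rw [if_pos h1, if_pos h1, h i h1]
  · rw [if_neg h1, if_neg h1]

theorem AXQ_all (hPQX : PQX_stmt) {L : Type} [Lattice L] [BoundedOrder L] (n : ℕ) (P : Pp L)
    (hP : Rp L (n + 1) true P) (k : ℕ) :
    Rp L (n + 1) true (fun δ e => ∀ v : ℕ → L, P δ (AXQ_en k v e)) := by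
  induction k with
  | zero =>
    refine AXQ_rp (fun δ e => ?_) hP
    constructor
    · intro h v
      rw [AXQ_en_zero]
      exact h
    · intro h
      have := h (fun _ => ⊥)
      rwa [AXQ_en_zero] at this
  | succ k ih =>
    refine AXQ_rp (fun δ e => ?_) ((hPQX L n _).2.2.1 ih)
    constructor
    · intro h v
      rw [AXQ_en_succ]
      exact h (v k) v
    · intro h x v
      have h1 := h (fun i => if i < k then v i else x)
      rw [AXQ_en_succ] at h1
      rw [if_neg (lt_irrefl k)] at h1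
      rw [AXQ_en_congr k v (fun i => if i < k then v i else x) _ (fun i hi => by simp [hi])]
      exact h1

theorem AXQ_ex (hPQX : PQX_stmt) {L : Type} [Lattice L] [BoundedOrder L] (n : ℕ) (P : Pp L)
    (hP : Rp L (n + 1) false P) (k : ℕ) :
    Rp L (n + 1) false (fun δ e => ∃ v : ℕ → L, P δ (AXQ_en k v e)) := by
  induction k with
  | zero =>
    refine AXQ_rp (fun δ e => ?_) hP
    constructor
    · intro h
      refine ⟨fun _ => ⊥, ?_⟩
      rw [AXQ_en_zero]
      exact h
    · rintro ⟨v, h⟩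
      rwa [AXQ_en_zero] at h
  | succ k ih =>
    refine AXQ_rp (fun δ e => ?_) ((hPQX L n _).1 ih)
    constructor
    · rintro ⟨x, v, h1⟩
      refine ⟨fun i => if i < k then v i else x, ?_⟩
      rw [AXQ_en_succ]
      rw [if_neg (lt_irrefl k), ← AXQ_en_congr k v (fun i => if i < k then v i else x) _ (fun i hi => by simp [hi])]
      exact h1
    · rintro ⟨v, h⟩
      rw [AXQ_en_succ] at h
      exact ⟨v k, v, h⟩

/-- the renaming -/
def AXQ_sg (K i : ℕ) : ℕ := if i % 2 = 0 then (if i / 2 < K then i / 2 else 0) else K + i / 2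

theorem AXQ_agree {L : Type} (K : ℕ) (v e : ℕ → L) (i : ℕ) (hi : i < K) :
    AXQ_en K v e (AXQ_sg K i) = ilv v e i := by
  unfold AXQ_sg ilv
  by_cases h : i % 2 = 0
  · rw [if_pos h, if_pos h, if_pos (by omega)]
    unfold AXQ_en
    rw [if_pos (by omega)]
  · rw [if_neg h, if_neg h]
    unfold AXQ_en
    rw [if_neg (by omega)]
    congr 1
    omega

theorem AXQ_row (hPRN : PRN_stmt) (hPQX : PQX_stmt) (hLPX : LPX_stmt) : AXQ_stmt := by
  intro L _ _ n P
  constructor
  · intro hP
    obtain ⟨K, hK⟩ := hLPX L (n + 1) true P hP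
    have h1 := AXQ_all hPQX n _ (hPRN L (n + 1) true P (AXQ_sg K) hP) K
    refine AXQ_rp (fun δ e => ?_) h1
    exact forall_congr' fun v => hK δ _ _ (fun i hi => AXQ_agree K v e i hi)
  · intro hP
    obtain ⟨K, hK⟩ := hLPX L (n + 1) false P hP
    have h1 := AXQ_ex hPQX n _ (hPRN L (n + 1) false P (AXQ_sg K) hP) K
    refine AXQ_rp (fun δ e => ?_) h1
    exact exists_congr fun v => hK δ _ _ (fun i hi => AXQ_agree K v e i hi)

end

end S5
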