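import Pool.Agent.helper96.S5.SpecV

/-!
# MP_0b485e_lc, level 5, row BIT
-/

set_option autoImplicit false

namespace S5

open PF

noncomputable section

open Classical

theorem BIT_dc (X : Cx) (a a' k t s v : ℕ) (hv : v ≠ 0) (h : X.dcD (pS a a') k t s = v) :
    (v = 2 → We a (Nat.pair k (X.f t))) ∧ (v = 1 → We a' (Nat.pair k (X.f t))) := by
  unfold Cx.dcD pS at h
  simp only [Nat.unpair_pair] at h
  rw [if_pos trivial] at h
  by_cases h1 : ∃ u ≤ s, Wst a u (Nat.pair k (X.f t)) ∧ ∀ u' < u, ¬ Wst a' u' (Nat.pair k (X.f t))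
  · rw [if_pos h1] at h
    obtain ⟨u, _, hu, _⟩ := h1
    exact ⟨fun _ => ⟨u, hu⟩, fun h2 => by omega⟩
  · rw [if_neg h1] at h
    by_cases h2 : ∃ u ≤ s, Wst a' u (Nat.pair k (X.f t))
    · rw [if_pos h2] at h
      obtain ⟨u, _, hu⟩ := h2
      exact ⟨fun h3 => by omega, fun _ => ⟨u, hu⟩⟩
    · rw [if_neg h2] at h
      exact absurd h.symm hv

theorem BIT_row (hDIS : DIS_stmt) : BIT_stmt := by
  intro X _ x x' i hrep k j hi
  obtain ⟨a, a', rfl, _, hx, hx'⟩ := hrep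
  have key : ∀ y ∈ X.bk k j, ∀ v, v ≠ 0 → ent (pcc j).1 (pS a a') = v →
      (v = 2 → We a y) ∧ (v = 1 → We a' y) := by
    rintro y ⟨t, rfl, s, hs⟩ v hv hev
    have h1 := ((hDIS X.B k).2 j _ hs).1
    obtain ⟨_, _, ⟨_, hfit⟩, _⟩ := h1
    have h2 := hfit _ hi
    rw [hev] at h2
    unfold BD.vl at h2
    rw [Nat.unpair_pair] at h2
    by_cases h3 : ent (X.B.th k (s, t).2).1 (pS a a') ≠ 0
    · rw [if_pos h3] at h2
      exact BIT_dc X a a' k t s v hv h2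
    · rw [if_neg h3] at h2
      exact absurd h2.symm hv
  constructor
  · intro h2
    refine hx.subset ?_
    rintro y ⟨hy, hyx⟩
    exact Or.inr ⟨(key y hy 2 (by norm_num) h2).1 rfl, hyx⟩
  · intro h1
    refine hx'.subset ?_
    rintro y ⟨hy, hyx⟩
    exact Or.inr ⟨(key y hy 1 (by norm_num) h1).2 rfl, hyx⟩

end

end S5
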