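import Pool.Agent.helper96.S5.SpecL

/-!
# MP_0b485e_lc, level 5, row CPI
-/

set_option autoImplicit false

namespace S5

open PF

noncomputable section

open Classical

theorem CPI_row : CPI_stmt := by
  intro L _ _ hK R rules s gr M hok hs hgr N ρ c' hm
  obtain ⟨hm1, hm2, hm3⟩ := hm
  obtain ⟨p, π, hsur, hE⟩ := hK (N + 1) R ρ (Nat.succ_pos N) (by omega)
  have hx : ∀ a : ℕ, ∃ x, π x = c' a := fun a => hsur (c' a)
  choose X hX using hx
  -- the two key facts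
  have hE1 : ∀ r < R, ∀ (x x' y y' : L) (h1 : Dm p x x') (h2 : Dm p y y'),
      (EC p (9 + 2 * r) x x' y y' ↔ ρ r (π ⟨(x, x'), h1⟩) (π ⟨(y, y'), h2⟩)) ∧
      (EC p (10 + 2 * r) x x' y y' ↔ ¬ ρ r (π ⟨(x, x'), h1⟩) (π ⟨(y, y'), h2⟩)) :=
    fun r hr x x' y y' h1 h2 => hE r hr ⟨(x, x'), h1⟩ ⟨(y, y'), h2⟩
  let c : ℕ → L := fun n => if n % 2 = 0 then (X (n / 2)).1.1 else (X (n / 2)).1.2
  have c0 : ∀ a, c (2 * a) = (X a).1.1 := by
    intro a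
    show (if 2 * a % 2 = 0 then (X (2 * a / 2)).1.1 else (X (2 * a / 2)).1.2) = _
    rw [if_pos (by omega), show 2 * a / 2 = a by omega]
  have c1 : ∀ a, c (2 * a + 1) = (X a).1.2 := by
    intro a
    show (if (2 * a + 1) % 2 = 0 then (X ((2 * a + 1) / 2)).1.1 else (X ((2 * a + 1) / 2)).1.2) = _
    rw [if_neg (by omega), show (2 * a + 1) / 2 = a by omega]
  refine ⟨c, p, ?_, ?_, ?_, ?_, ?_⟩
  · intro a _
    rw [c0, c1]
    exact (X a).2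
  · intro r hr x x' y y' h1 h2
    have h3 := hE1 r (List.mem_range.1 hr) x x' y y' h1 h2
    by_cases h4 : ρ r (π ⟨(x, x'), h1⟩) (π ⟨(y, y'), h2⟩)
    · exact Or.inl (h3.1.2 h4)
    · exact Or.inr (h3.2.2 h4)
  · intro h hh v hD
    by_contra hcon
    push Not at hcon
    obtain ⟨hcA, hcB⟩ := hcon
    let w : ℕ → Fin (N + 1) := fun i => if hi : Dm p (v (2 * i)) (v (2 * i + 1)) then
      π ⟨(v (2 * i), v (2 * i + 1)), hi⟩ else 0
    have hw : ∀ i (hi : Dm p (v (2 * i)) (v (2 * i + 1))), w i = π ⟨(v (2 * i), v (2 * i + 1)), hi⟩ := by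
      intro i hi
      show (if hi : Dm p (v (2 * i)) (v (2 * i + 1)) then π ⟨(v (2 * i), v (2 * i + 1)), hi⟩ else 0) = _
      rw [dif_pos hi]
    have hvr1 : ∀ a ∈ h.1, a.2.1 ∈ hvr h ∧ a.2.2 ∈ hvr h := by
      intro a ha
      unfold hvr
      constructor
      · exact List.mem_append_left _ (List.mem_flatMap.2 ⟨a, ha, by simp [avr]⟩)
      · exact List.mem_append_left _ (List.mem_flatMap.2 ⟨a, ha, by simp [avr]⟩)
    have hvr2 : ∀ a ∈ h.2.toList, a.2.1 ∈ hvr h ∧ a.2.2 ∈ hvr h := by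
      intro a ha
      unfold hvr
      constructor
      · exact List.mem_append_right _ (List.mem_flatMap.2 ⟨a, ha, by simp [avr]⟩)
      · exact List.mem_append_right _ (List.mem_flatMap.2 ⟨a, ha, by simp [avr]⟩)
    have hhyp : ∀ a ∈ h.1, ρ a.1 (w a.2.1) (w a.2.2) := by
      intro a ha
      have d1 := hD _ (hvr1 a ha).1
      have d2 := hD _ (hvr1 a ha).2
      have h3 := (hE1 a.1 ((hok h hh).1 a ha) _ _ _ _ d1 d2).1.1 (hcA a ha)
      rw [hw _ d1, hw _ d2]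
      exact h3
    obtain ⟨a, ha, hρ⟩ := hm1 h hh w hhyp
    have hal : a ∈ h.2.toList := by
      rw [ha]
      simp
    have d1 := hD _ (hvr2 a hal).1
    have d2 := hD _ (hvr2 a hal).2
    have h3 := (hE1 a.1 ((hok h hh).2 a ha) _ _ _ _ d1 d2).2.1 (hcB a hal)
    rw [hw _ d1, hw _ d2] at hρ
    exact h3 hρ
  · intro x x' h1
    obtain ⟨y, hy⟩ := hm2 (π ⟨(x, x'), h1⟩)
    obtain ⟨Y, hY⟩ := hsur y
    refine ⟨Y.1.1, Y.1.2, Y.2, fun h2 => ?_⟩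
    have h3 := (hE1 s hs _ _ _ _ h1 Y.2).2.1 h2
    have h4 : π ⟨(Y.1.1, Y.1.2), Y.2⟩ = y := hY
    rw [h4] at h3
    exact h3 hy
  · intro r hr x x' y y' hd h2
    obtain ⟨a, ha, har, ⟨hx1, hx2⟩, hy1, hy2⟩ := hd
    rw [c0] at hx1 hy1
    rw [c1] at hx2 hy2
    subst hx1 hx2 hy1 hy2
    have h3 := (hE1 r (List.mem_range.1 hr) _ _ _ _ (X a.2.1).2 (X a.2.2).2).2.1 h2
    have h4 : π ⟨((X a.2.1).1.1, (X a.2.1).1.2), (X a.2.1).2⟩ = c' a.2.1 := hX a.2.1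
    have h5 : π ⟨((X a.2.2).1.1, (X a.2.2).1.2), (X a.2.2).2⟩ = c' a.2.2 := hX a.2.2
    rw [h4, h5, ← har] at h3
    exact h3 (hm3 a ha)

end

end S5
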