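import Pool.Agent.helper96.S5.SpecV

/-!
# MP_0b485e_lc, level 5, row GLU
-/

set_option autoImplicit false

namespace S5

open PF

noncomputable section

open Classical

theorem GLU_row (hCNC : CNC_stmt) (hDIS : DIS_stmt) : GLU_stmt := by
  intro X hX R k hF
  obtain ⟨a, ha⟩ := We_surj (re_fin_union R.2 (hF.image (fun z => Nat.pair k z)))
  have hC : X.B.C (pT a) k := by
    rw [(hCNC X k).1 a]
    intro z
    by_cases hz : z ∈ X.E
    · exact Or.inr hz
    · refine Or.inl ((ha _).2 ?_)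
      by_cases hz2 : Nat.pair k z ∈ R.1
      · exact Or.inl hz2
      · exact Or.inr ⟨z, ⟨hz, hz2⟩, rfl⟩
  refine ⟨pT a + 1, ?_⟩
  rintro j hj hRS x ⟨t, rfl, s, hs⟩
  obtain ⟨_, _, ⟨⟨_, _, hlen⟩, hfit⟩, _⟩ := ((hDIS X.B k).2 j _ hs).1
  have h1 : ent (pcc j).1 (pT a) ≠ 0 := ((hRS.1 (pT a) (by omega)).2 hC)
  have h2 := hfit (pT a) (by omega)
  unfold BD.vl at h2
  rw [Nat.unpair_pair] at h2 hlen
  have h3 : ent (X.B.th k (s, t).2).1 (pT a) ≠ 0 := by
    intro h0
    rw [if_neg (not_not.2 h0)] at h2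
    exact h1 h2.symm
  have h4 := (th_adm X.B hX.m0 k t).2 (pT a) (lt_of_lt_of_le (by omega) hlen) h3
  have h5 : Wst a t (Nat.pair k (X.f t)) := by
    have h6 : X.prD (pT a) k t := h4
    unfold Cx.prD pT at h6
    rw [Nat.unpair_pair] at h6
    exact h6 rfl
  rcases (ha _).1 ⟨t, h5⟩ with h6 | ⟨z, hz, hze⟩
  · exact h6
  · have h7 : z = X.f t := by
      have := congrArg Nat.unpair hze
      simp only [Nat.unpair_pair] at this
      exact (Prod.mk.inj this).2
    exact absurd ⟨t, h7.symm⟩ hz.1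

end

end S5
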