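import Pool.Agent.helper96.S5.SpecV

/-!
# MP_0b485e_lc, level 5, row JCP
-/

set_option autoImplicit false

namespace S5

open PF

noncomputable section

open Classical

theorem JCP_row : JCP_stmt := by
  intro X p hp R hJ
  obtain ⟨R', R1, h1, h2, _⟩ := (jm_iff hp R).1 hJ
  have hset : (R'.1 \ (R.1 ∩ R'.1)) ∪ {x | x ∉ R.1 ∧ x ∉ R'.1} = {x | x ∉ R.1} := by
    ext x
    constructor
    · rintro (⟨hx, hx2⟩ | ⟨hx, _⟩)
      · exact fun hx3 => hx2 ⟨hx3, hx⟩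
      · exact hx
    · intro hx
      by_cases hx2 : x ∈ R'.1
      · exact Or.inl ⟨hx2, fun h3 => hx h3.1⟩
      · exact Or.inr ⟨hx, hx2⟩
  have hre : REPred fun x => x ∈ (R'.1 \ (R.1 ∩ R'.1)) ∪ {x | x ∉ R.1 ∧ x ∉ R'.1} :=
    re_fin_union (re_fin_diff R'.2 h2) h1
  rw [hset] at hre
  exact ComputablePred.computable_iff_re_compl_re.2 ⟨R.2, hre⟩

end

end S5
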